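import Pool.Agent.V7H81.SV.Match

/-!
# MP_434093_an: the spectral variation constants `C_K` are finite, with `C_K ≤ (1 + o(1)) √K`

`HTuple K n` is the type of `K`-tuples of pairwise commuting Hermitian `n × n` matrices, `Lists A α`
says that `α 1, …, α n` are the joint eigenvalues of `A` (with multiplicity), `matchDist` is the
optimal matching distance, `tupleDist` is the operator norm of `x ↦ ((A J - B J) x)_J`, and `CK K`
is the smallest constant `C ∈ [0, ∞]` with `matchDist ≤ C * tupleDist` for all `n ≥ 1` and all pairs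
of `K`-tuples of `n × n` matrices.
-/

set_option autoImplicit false

open Complex Filter Topology
open scoped ENNReal Matrix.Norms.L2Operator

namespace Pool.Agent.Results.MP_434093_an.SqrtBoundH81

/-- A `K`-tuple of pairwise commuting Hermitian `n × n` complex matrices. -/
structure HTuple (K n : ℕ) where
  /-- the matrices -/
  mat : Fin K → Matrix (Fin n) (Fin n) ℂ
  herm : ∀ J, (mat J).IsHermitian
  comm : ∀ I J, Commute (mat I) (mat J)

/-- `α` lists the joint eigenvalues of `A` with multiplicity: there is an orthonormal basis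
`u` of `ℂⁿ` with `A J (u j) = (α j) J • u j` for all `j` and `J`. -/
def Lists {K n : ℕ} (A : HTuple K n) (α : Fin n → EuclideanSpace ℝ (Fin K)) : Prop :=
  ∃ u : OrthonormalBasis (Fin n) ℂ (EuclideanSpace ℂ (Fin n)),
    ∀ j J, (A.mat J).toEuclideanLin (u j) = ((α j J : ℝ) : ℂ) • u j

/-- The optimal matching distance `min_π max_j |α j - β (π j)|`. -/
noncomputable def matchDist {K n : ℕ} (α β : Fin n → EuclideanSpace ℝ (Fin K)) : ℝ :=
  ⨅ π : Equiv.Perm (Fin n), ⨆ j, ‖α j - β (π j)‖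

/-- The matrix of the map `x ↦ ((A 1 - B 1) x, …, (A K - B K) x)` from `ℂⁿ` to `(ℂⁿ)^K`. -/
def stack {K n : ℕ} (A B : HTuple K n) : Matrix (Fin K × Fin n) (Fin n) ℂ :=
  Matrix.of fun p k => (A.mat p.1 - B.mat p.1) p.2 k

/-- The norm `‖A - B‖`: the operator norm of `x ↦ ((A 1 - B 1) x, …, (A K - B K) x)`. -/
noncomputable def tupleDist {K n : ℕ} (A B : HTuple K n) : ℝ := ‖stack A B‖

/-- The smallest constant `C` in `[0, ∞]` such that `matchDist ≤ C * tupleDist` for all `n ≥ 1` and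
all pairs of `K`-tuples of `n × n` matrices. -/
noncomputable def CK (K : ℕ) : ℝ≥0∞ :=
  sInf {C : ℝ≥0∞ | ∀ n : ℕ, 1 ≤ n → ∀ (A B : HTuple K n) (α β : Fin n → EuclideanSpace ℝ (Fin K)),
    Lists A α → Lists B β → ENNReal.ofReal (matchDist α β) ≤ C * ENNReal.ofReal (tupleDist A B)}

/-! ### Joint eigenvalues exist -/

lemma exists_lists {K n : ℕ} (A : HTuple K n) : ∃ α, Lists A α := by
  classical
  let T : Fin K → EuclideanSpace ℂ (Fin n) →ₗ[ℂ] EuclideanSpace ℂ (Fin n) :=
    fun J => (A.mat J).toEuclideanLin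
  have hT : ∀ J, (T J).IsSymmetric := fun J =>
    Matrix.isSymmetric_toEuclideanLin_iff.2 (A.herm J)
  have hC : Pairwise (Function.onFun Commute T) := by
    intro I J _
    have := A.comm I J
    change T I * T J = T J * T I
    ext1 x
    have h1 : (A.mat I * A.mat J) = A.mat J * A.mat I := this
    simp only [T, Module.End.mul_apply]
    ext i
    simp [Matrix.toEuclideanLin, Matrix.mulVec_mulVec, h1]
  have hint := LinearMap.IsSymmetric.directSum_isInternal_of_pairwise_commute hT hC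
  have hort := LinearMap.IsSymmetric.orthogonalFamily_iInf_eigenspaces hT
  let V : (Fin K → ℂ) → Submodule ℂ (EuclideanSpace ℂ (Fin n)) :=
    fun χ => ⨅ J, Module.End.eigenspace (T J) (χ J)
  let vf : ∀ χ, OrthonormalBasis (Fin (Module.finrank ℂ (V χ))) ℂ (V χ) :=
    fun χ => stdOrthonormalBasis ℂ (V χ)
  have hbo := hint.collectedBasis_orthonormal hort
    (v_family := fun χ => (vf χ).toBasis) (fun χ => by simp)
  set b := hint.collectedBasis (fun χ => (vf χ).toBasis) with hb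
  have : Finite (Σ χ : Fin K → ℂ, Fin (Module.finrank ℂ (V χ))) := Module.Finite.finite_basis b
  let _ : Fintype (Σ χ : Fin K → ℂ, Fin (Module.finrank ℂ (V χ))) := Fintype.ofFinite _
  have hcard : Fintype.card (Σ χ : Fin K → ℂ, Fin (Module.finrank ℂ (V χ))) = n := by
    have h1 := Module.finrank_eq_card_basis b
    rw [← h1]
    simp
  let e := Fintype.equivFinOfCardEq hcard
  let u := (b.toOrthonormalBasis hbo).reindex e
  have hu : ∀ j J, T J (u j) = (e.symm j).1 J • u j := by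
    intro j J
    have h1 : u j = b (e.symm j) := by
      simp [u]
    have h2 : b (e.symm j) ∈ V (e.symm j).1 := by
      have h3 := hint.collectedBasis_mem (fun χ => (vf χ).toBasis) (e.symm j)
      exact h3
    rw [h1]
    exact Module.End.mem_eigenspace_iff.1 ((Submodule.mem_iInf _).1 h2 J)
  have hreal : ∀ j J, (((e.symm j).1 J).re : ℂ) = (e.symm j).1 J := by
    intro j J
    have h1 : Module.End.HasEigenvalue (T J) ((e.symm j).1 J) := by
      refine Module.End.hasEigenvalue_of_hasEigenvector (x := u j) ⟨?_, ?_⟩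
      · exact Module.End.mem_eigenspace_iff.2 (hu j J)
      · exact u.orthonormal.ne_zero j
    exact Complex.conj_eq_iff_re.1 ((hT J).conj_eigenvalue_eq_self h1)
  refine ⟨fun j => WithLp.toLp 2 (fun J => ((e.symm j).1 J).re), u, fun j J => ?_⟩
  have h1 := hu j J
  rw [← hreal j J] at h1
  exact h1

/-! ### From matrices to coordinates -/

open Pool.Agent.V7H81.SV

lemma norm_stack_sq {K n : ℕ} (A B : HTuple K n) (x : EuclideanSpace ℂ (Fin n)) :
    ∑ J, ‖(A.mat J).toEuclideanLin x - (B.mat J).toEuclideanLin x‖ ^ 2 ≤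
      tupleDist A B ^ 2 * ‖x‖ ^ 2 := by
  have h1 := Matrix.l2_opNorm_mulVec (stack A B) x
  have h2 : ‖(EuclideanSpace.equiv (Fin K × Fin n) ℂ).symm (Matrix.mulVec (stack A B) x)‖ ^ 2 =
      ∑ J, ‖(A.mat J).toEuclideanLin x - (B.mat J).toEuclideanLin x‖ ^ 2 := by
    rw [EuclideanSpace.norm_sq_eq, Fintype.sum_prod_type]
    refine Finset.sum_congr rfl fun J _ => ?_
    rw [EuclideanSpace.norm_sq_eq]
    refine Finset.sum_congr rfl fun i _ => ?_
    congr 2
    simp only [stack, PiLp.continuousLinearEquiv_symm_apply, Matrix.mulVec, Matrix.of_apply,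
      dotProduct, Matrix.sub_apply, PiLp.sub_apply, Matrix.ofLp_toLpLin, Matrix.toLin'_apply]
    rw [← Finset.sum_sub_distrib]
    refine Finset.sum_congr rfl fun k _ => ?_
    ring
  rw [← h2, ← mul_pow]
  unfold tupleDist
  gcongr

lemma unitary_W {n : ℕ} (u v : OrthonormalBasis (Fin n) ℂ (EuclideanSpace ℂ (Fin n))) (k m : Fin n) :
    ∑ j, (starRingEnd ℂ) (inner ℂ (u j) (v k)) * inner ℂ (u j) (v m) = if k = m then 1 else 0 := by
  simp_rw [inner_conj_symm]
  rw [u.sum_inner_mul_inner]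
  exact orthonormal_iff_ite.1 v.orthonormal k m

lemma fam_W {K n : ℕ} (A B : HTuple K n) (α β : Fin n → EuclideanSpace ℝ (Fin K))
    (u v : OrthonormalBasis (Fin n) ℂ (EuclideanSpace ℂ (Fin n)))
    (hu : ∀ j J, (A.mat J).toEuclideanLin (u j) = ((α j J : ℝ) : ℂ) • u j)
    (hv : ∀ j J, (B.mat J).toEuclideanLin (v j) = ((β j J : ℝ) : ℂ) • v j)
    {η : ℝ} (hη : 0 < η) (hd : tupleDist A B ≤ η) :
    BB (fam (fun j J => α j J) (fun k J => β k J) (fun j k => inner ℂ (u j) (v k))) η := by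
  refine BB.of_sq hη fun ψ => ?_
  set x : EuclideanSpace ℂ (Fin n) := ∑ k, ψ k • v k with hx
  have h1 : ‖x‖ ^ 2 = ∑ k, ‖ψ k‖ ^ 2 := by
    rw [← v.sum_sq_norm_inner_right x]
    refine Finset.sum_congr rfl fun k _ => ?_
    rw [hx, v.orthonormal.inner_right_fintype]
  have h2 : ∀ J j, inner ℂ (u j) ((A.mat J).toEuclideanLin x - (B.mat J).toEuclideanLin x) =
      ∑ k, (((α j J - β k J : ℝ) : ℂ) * inner ℂ (u j) (v k)) * ψ k := by
    intro J j
    have hsymm : ((A.mat J).toEuclideanLin).IsSymmetric :=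
      Matrix.isSymmetric_toEuclideanLin_iff.2 (A.herm J)
    rw [inner_sub_right, ← hsymm (u j) x, hu, hx, map_sum, inner_smul_left, inner_sum, inner_sum,
      Finset.mul_sum, ← Finset.sum_sub_distrib]
    refine Finset.sum_congr rfl fun k _ => ?_
    rw [map_smul, hv, inner_smul_right, inner_smul_right, inner_smul_right, Complex.conj_ofReal]
    push_cast
    ring
  have h3 : ∑ i : Fin K × Fin n, ‖∑ k, fam (fun j J => α j J) (fun k J => β k J)
      (fun j k => inner ℂ (u j) (v k)) i k * ψ k‖ ^ 2 =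
      ∑ J, ‖(A.mat J).toEuclideanLin x - (B.mat J).toEuclideanLin x‖ ^ 2 := by
    rw [Fintype.sum_prod_type]
    refine Finset.sum_congr rfl fun J _ => ?_
    rw [← u.sum_sq_norm_inner_right]
    refine Finset.sum_congr rfl fun j _ => ?_
    rw [h2]
    rfl
  rw [h3, ← h1]
  refine (norm_stack_sq A B x).trans ?_
  have h4 : 0 ≤ tupleDist A B := norm_nonneg _
  gcongr

lemma dsq_eq {K : ℕ} (a b : EuclideanSpace ℝ (Fin K)) :
    dsq (fun J => a J) (fun J => b J) = ‖a - b‖ ^ 2 := by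
  rw [EuclideanSpace.norm_sq_eq]
  unfold dsq
  refine Finset.sum_congr rfl fun J _ => ?_
  rw [PiLp.sub_apply, Real.norm_eq_abs, sq_abs]

lemma bdd_below_matchDist {K n : ℕ} (α β : Fin n → EuclideanSpace ℝ (Fin K)) :
    BddBelow (Set.range fun π : Equiv.Perm (Fin n) => ⨆ j, ‖α j - β (π j)‖) :=
  (Set.finite_range _).bddBelow

lemma matchDist_le {K n : ℕ} {α β : Fin n → EuclideanSpace ℝ (Fin K)} {D : ℝ} (hD : 0 ≤ D)
    (π : Equiv.Perm (Fin n)) (h : ∀ j, ‖α j - β (π j)‖ ≤ D) : matchDist α β ≤ D :=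
  (ciInf_le (bdd_below_matchDist α β) π).trans (Real.iSup_le h hD)

/-- The main inequality. -/
lemma main_bound {K n : ℕ} (hK : 1 ≤ K) (A B : HTuple K n) (α β : Fin n → EuclideanSpace ℝ (Fin K))
    (hA : Lists A α) (hB : Lists B β) {t : ℝ} (ht : 1 < t) (hq : (t * Real.exp (1 - t)) ^ K < 1) :
    matchDist α β ≤ √(t * K / (1 - (t * Real.exp (1 - t)) ^ K)) * tupleDist A B := by
  obtain ⟨u, hu⟩ := hA
  obtain ⟨v, hv⟩ := hB
  set q := (t * Real.exp (1 - t)) ^ K with hqd
  have hK' : (0 : ℝ) < K := by exact_mod_cast hK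
  have hpos : 0 < t * K / (1 - q) := by
    have : 0 < 1 - q := by linarith
    positivity
  have hd0 : 0 ≤ tupleDist A B := norm_nonneg _
  -- it suffices to prove the bound for every larger `D`
  refine le_of_forall_gt_imp_ge_of_dense fun D hD => ?_
  set c := √(t * K / (1 - q)) with hc
  have hc0 : 0 < c := Real.sqrt_pos.2 hpos
  have hD0 : 0 < D := lt_of_le_of_lt (by positivity) hD
  -- choose `η`
  obtain ⟨η, hη1, hη2⟩ := exists_between ((lt_div_iff₀' hc0).2 hD)
  have hη0 : 0 < η := lt_of_le_of_lt hd0 hη1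
  have hcη : c * η < D := (lt_div_iff₀' hc0).1 hη2
  have h1 : q < 1 - t * K * η ^ 2 / D ^ 2 := by
    have h2 : (c * η) ^ 2 < D ^ 2 := by gcongr
    rw [mul_pow, hc, Real.sq_sqrt hpos.le] at h2
    have h3 : 0 < 1 - q := by linarith
    have h4 : t * K * η ^ 2 / D ^ 2 < 1 - q := by
      rw [div_lt_iff₀ (by positivity)]
      have h5 : t * K / (1 - q) * η ^ 2 = t * K * η ^ 2 / (1 - q) := by ring
      rw [h5, div_lt_iff₀ h3] at h2
      linarith
    linarith
  obtain ⟨π, hπ⟩ := matching hK (fun j J => α j J) (fun k J => β k J)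
    (fun j k => inner ℂ (u j) (v k)) hη0 (fam_W A B α β u v hu hv hη0 hη1.le)
    (unitary_W u v) ht hD0 h1
  refine matchDist_le hD0.le π fun j => ?_
  have h2 := hπ j
  rw [dsq_eq] at h2
  exact (lt_of_pow_lt_pow_left₀ 2 hD0.le h2).le

/-! ### Numerical consequences -/

lemma base_lt_one {t : ℝ} (ht : 1 < t) : t * Real.exp (1 - t) < 1 := by
  have h1 : t < Real.exp (t - 1) := by
    have := Real.add_one_lt_exp (x := t - 1) (by linarith)
    linarith
  have h2 : Real.exp (1 - t) * Real.exp (t - 1) = 1 := by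
    rw [← Real.exp_add]
    simp
  have h3 : 0 < Real.exp (1 - t) := Real.exp_pos _
  calc t * Real.exp (1 - t) < Real.exp (t - 1) * Real.exp (1 - t) := by gcongr
    _ = 1 := by rw [mul_comm]; exact h2

lemma q_lt_one {K : ℕ} (hK : 1 ≤ K) {t : ℝ} (ht : 1 < t) : (t * Real.exp (1 - t)) ^ K < 1 := by
  refine pow_lt_one₀ (by positivity) (base_lt_one ht) (by omega)

lemma CK_le {K : ℕ} (hK : 1 ≤ K) {t : ℝ} (ht : 1 < t) :
    CK K ≤ ENNReal.ofReal √(t * K / (1 - (t * Real.exp (1 - t)) ^ K)) := by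
  refine sInf_le ?_
  intro n _ A B α β hA hB
  rw [← ENNReal.ofReal_mul (Real.sqrt_nonneg _)]
  exact ENNReal.ofReal_le_ofReal (main_bound hK A B α β hA hB ht (q_lt_one hK ht))

lemma base_le {t : ℝ} (ht : 1 ≤ t) : t * Real.exp (1 - t) ≤ Real.exp (-((t - 1) ^ 2 / (2 * t))) := by
  have ht0 : 0 < t := by linarith
  have h1 : Real.log t ≤ (t - t⁻¹) / 2 := by
    rw [← Real.sinh_log ht0]
    exact Real.self_le_sinh_iff.2 (Real.log_nonneg ht)
  calc t * Real.exp (1 - t) = Real.exp (Real.log t + (1 - t)) := by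
        rw [Real.exp_add, Real.exp_log ht0]
    _ ≤ Real.exp (-((t - 1) ^ 2 / (2 * t))) := by
        refine Real.exp_le_exp.2 ?_
        have h2 : -((t - 1) ^ 2 / (2 * t)) = (t - t⁻¹) / 2 + (1 - t) := by
          field_simp
          ring
        rw [h2]
        linarith

lemma CK_le_explicit {K : ℕ} (hK : 1 ≤ K) :
    CK K ≤ ENNReal.ofReal (√(K + 1) *
      (√(Real.log (K + 1) / (2 * K)) + √(1 + Real.log (K + 1) / (2 * K)))) := by
  have hK' : (1 : ℝ) ≤ K := by exact_mod_cast hK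
  have hlog : 0 < Real.log ((K : ℝ) + 1) := Real.log_pos (by linarith)
  set r : ℝ := Real.log (K + 1) / (2 * K) with hr
  have hr0 : 0 < r := by positivity
  set a := √r with ha
  have ha0 : 0 < a := Real.sqrt_pos.2 hr0
  have ha2 : a ^ 2 = r := Real.sq_sqrt hr0.le
  set b := √(1 + r) with hb
  have hb2 : b ^ 2 = 1 + r := Real.sq_sqrt (by linarith)
  have hb1 : 1 ≤ b := by
    rw [hb]
    exact Real.one_le_sqrt.2 (by linarith)
  set s := a + b with hs
  have hs1 : 1 < s := by linarith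
  set t := s ^ 2 with ht
  have ht1 : 1 < t := by nlinarith
  have h1 : (t - 1) ^ 2 / (2 * t) = 2 * r := by
    -- `s - 1/s = 2a`
    have h2 : s ^ 2 - 1 = 2 * a * s := by
      rw [hs]
      nlinarith
    have h3 : 0 < s := by linarith
    rw [ht, h2, ← ha2]
    field_simp
  have h2 : (t * Real.exp (1 - t)) ^ K ≤ 1 / (K + 1) := by
    have h3 := base_le ht1.le
    rw [h1] at h3
    calc (t * Real.exp (1 - t)) ^ K ≤ (Real.exp (-(2 * r))) ^ K := by gcongr
      _ = Real.exp (-Real.log (K + 1)) := by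
          rw [← Real.exp_nat_mul]
          congr 1
          rw [hr]
          field_simp
      _ = 1 / (K + 1) := by
          rw [Real.exp_neg, Real.exp_log (by linarith)]
          simp
  refine (CK_le hK ht1).trans (ENNReal.ofReal_le_ofReal ?_)
  have h4 : t * K / (1 - (t * Real.exp (1 - t)) ^ K) ≤ (K + 1) * s ^ 2 := by
    have h5 : 0 < 1 - 1 / ((K : ℝ) + 1) := by
      have : 1 / ((K : ℝ) + 1) < 1 := by
        rw [div_lt_one (by linarith)]
        linarith
      linarith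
    calc t * K / (1 - (t * Real.exp (1 - t)) ^ K) ≤ t * K / (1 - 1 / (K + 1)) := by
          gcongr
      _ = (K + 1) * s ^ 2 := by
          have h6 : 1 - 1 / ((K : ℝ) + 1) = K / (K + 1) := by
            field_simp
            ring
          rw [h6, ht]
          field_simp
  calc √(t * K / (1 - (t * Real.exp (1 - t)) ^ K)) ≤ √((K + 1) * s ^ 2) := Real.sqrt_le_sqrt h4
    _ = √(K + 1) * s := by
        rw [Real.sqrt_mul (by linarith), Real.sqrt_sq (by linarith)]

lemma tendsto_log_div : Tendsto (fun K : ℕ => Real.log ((K : ℝ) + 1) / (2 * K)) atTop (𝓝 0) := by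
  have h1 : Tendsto (fun x : ℝ => Real.log x / x) atTop (𝓝 0) := by
    have := Real.isLittleO_log_id_atTop.tendsto_div_nhds_zero
    simpa using this
  have h2 : Tendsto (fun K : ℕ => (K : ℝ) + 1) atTop atTop :=
    tendsto_atTop_add_const_right _ _ tendsto_natCast_atTop_atTop
  have h3 : Tendsto (fun K : ℕ => Real.log ((K : ℝ) + 1) / ((K : ℝ) + 1)) atTop (𝓝 0) := h1.comp h2
  refine squeeze_zero' ?_ ?_ h3
  · filter_upwards [eventually_ge_atTop 1] with K hK
    have hK' : (1 : ℝ) ≤ K := by exact_mod_cast hK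
    have : 0 ≤ Real.log ((K : ℝ) + 1) := Real.log_nonneg (by linarith)
    positivity
  · filter_upwards [eventually_ge_atTop 1] with K hK
    have hK' : (1 : ℝ) ≤ K := by exact_mod_cast hK
    have : 0 ≤ Real.log ((K : ℝ) + 1) := Real.log_nonneg (by linarith)
    gcongr
    linarith

lemma CK_eventually {ε : ℝ} (hε : 0 < ε) :
    ∀ᶠ K : ℕ in atTop, CK K ≤ ENNReal.ofReal ((1 + ε) * √K) := by
  have h1 : Tendsto (fun K : ℕ => √(1 + 1 / (K : ℝ)) *
      (√(Real.log ((K : ℝ) + 1) / (2 * K)) + √(1 + Real.log ((K : ℝ) + 1) / (2 * K)))) atTop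
      (𝓝 (√(1 + 0) * (√0 + √(1 + 0)))) := by
    refine Tendsto.mul ?_ (Tendsto.add ?_ ?_)
    · exact (tendsto_const_nhds.add (tendsto_one_div_atTop_nhds_zero_nat (𝕜 := ℝ))).sqrt
    · exact tendsto_log_div.sqrt
    · exact (tendsto_const_nhds.add tendsto_log_div).sqrt
  simp only [add_zero, Real.sqrt_one, Real.sqrt_zero, zero_add, mul_one] at h1
  have h2 := h1.eventually_lt_const (show (1 : ℝ) < 1 + ε by linarith)
  filter_upwards [h2, eventually_ge_atTop 1] with K hK1 hK2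
  refine (CK_le_explicit hK2).trans (ENNReal.ofReal_le_ofReal ?_)
  have hK' : (1 : ℝ) ≤ K := by exact_mod_cast hK2
  have h3 : √((K : ℝ) + 1) = √(1 + 1 / (K : ℝ)) * √K := by
    rw [← Real.sqrt_mul (by positivity)]
    congr 1
    field_simp
  rw [h3]
  calc √(1 + 1 / (K : ℝ)) * √K *
      (√(Real.log (K + 1) / (2 * K)) + √(1 + Real.log (K + 1) / (2 * K)))
      = √(1 + 1 / (K : ℝ)) *
      (√(Real.log (K + 1) / (2 * K)) + √(1 + Real.log (K + 1) / (2 * K))) * √K := by ring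
    _ ≤ (1 + ε) * √K := by gcongr

lemma CK_two : CK 2 ≤ ENNReal.ofReal 2.67 := by
  refine (CK_le (K := 2) (by norm_num) (t := 11 / 4) (by norm_num)).trans
    (ENNReal.ofReal_le_ofReal ?_)
  rw [Real.sqrt_le_left (by norm_num)]
  have h1 : Real.exp (1 - 11 / 4) ^ 2 ≤ 0.03021 := by
    have h2 : (Real.exp (1 - 11 / 4) ^ 2) ^ 2 = (Real.exp 1)⁻¹ ^ 7 := by
      rw [← Real.exp_neg, ← pow_mul, ← Real.exp_nat_mul, ← Real.exp_nat_mul]
      congr 1
      norm_num
    have h3 := Real.exp_one_gt_d9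
    have h4 : (Real.exp 1)⁻¹ ≤ 0.36788 := by
      rw [inv_le_comm₀ (Real.exp_pos _) (by norm_num)]
      refine le_trans ?_ h3.le
      norm_num
    have h5 : (Real.exp 1)⁻¹ ^ 7 ≤ 0.36788 ^ 7 := by gcongr
    have h6 : (Real.exp (1 - 11 / 4) ^ 2) ^ 2 ≤ 0.03021 ^ 2 := by
      rw [h2]
      refine h5.trans ?_
      norm_num
    exact le_of_sq_le_sq h6 (by norm_num)
  have h7 : (11 / 4 * Real.exp (1 - 11 / 4)) ^ 2 ≤ 0.22848 := by
    rw [mul_pow]
    calc (11 / 4 : ℝ) ^ 2 * Real.exp (1 - 11 / 4) ^ 2 ≤ (11 / 4) ^ 2 * 0.03021 := by gcongr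
      _ ≤ 0.22848 := by norm_num
  rw [div_le_iff₀ (by linarith)]
  push_cast
  nlinarith

lemma CK_three : CK 3 ≤ ENNReal.ofReal 3.02 := by
  refine (CK_le (K := 3) (by norm_num) (t := 5 / 2) (by norm_num)).trans
    (ENNReal.ofReal_le_ofReal ?_)
  rw [Real.sqrt_le_left (by norm_num)]
  have h1 : Real.exp (1 - 5 / 2) ^ 3 ≤ 0.0112 := by
    have h2 : (Real.exp (1 - 5 / 2) ^ 3) ^ 2 = (Real.exp 1)⁻¹ ^ 9 := by
      rw [← Real.exp_neg, ← pow_mul, ← Real.exp_nat_mul, ← Real.exp_nat_mul]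
      congr 1
      norm_num
    have h3 := Real.exp_one_gt_d9
    have h4 : (Real.exp 1)⁻¹ ≤ 0.36788 := by
      rw [inv_le_comm₀ (Real.exp_pos _) (by norm_num)]
      refine le_trans ?_ h3.le
      norm_num
    have h5 : (Real.exp 1)⁻¹ ^ 9 ≤ 0.36788 ^ 9 := by gcongr
    have h6 : (Real.exp (1 - 5 / 2) ^ 3) ^ 2 ≤ 0.0112 ^ 2 := by
      rw [h2]
      refine h5.trans ?_
      norm_num
    exact le_of_sq_le_sq h6 (by norm_num)
  have h7 : (5 / 2 * Real.exp (1 - 5 / 2)) ^ 3 ≤ 0.175 := by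
    rw [mul_pow]
    calc (5 / 2 : ℝ) ^ 3 * Real.exp (1 - 5 / 2) ^ 3 ≤ (5 / 2) ^ 3 * 0.0112 := by gcongr
      _ ≤ 0.175 := by norm_num
  rw [div_le_iff₀ (by linarith)]
  push_cast
  nlinarith

/-- The infimum defining `CK K` is attained. -/
lemma CK_attained {K n : ℕ} (hK : 1 ≤ K) (hn : 1 ≤ n) (A B : HTuple K n)
    (α β : Fin n → EuclideanSpace ℝ (Fin K)) (hA : Lists A α) (hB : Lists B β) :
    ENNReal.ofReal (matchDist α β) ≤ CK K * ENNReal.ofReal (tupleDist A B) := by
  by_cases h0 : ENNReal.ofReal (tupleDist A B) = 0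
  · have h1 := ENNReal.ofReal_le_ofReal
      (main_bound hK A B α β hA hB (t := 2) (by norm_num) (q_lt_one hK (by norm_num)))
    rw [ENNReal.ofReal_mul (Real.sqrt_nonneg _), h0, mul_zero] at h1
    rw [h0, mul_zero]
    exact h1
  · have h2 : ENNReal.ofReal (tupleDist A B) ≠ ⊤ := ENNReal.ofReal_ne_top
    rw [← ENNReal.div_le_iff h0 h2]
    refine le_sInf fun C hC => ?_
    rw [ENNReal.div_le_iff h0 h2]
    exact hC n hn A B α β hA hB

/-- **Answer to Q1**: `C_K < ∞` for every `K ≥ 1`; moreover `C_K ≤ (1 + o(1)) √K`, with the explicit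
bounds stated below. -/
theorem result :
    -- every tuple has a list of joint eigenvalues
    (∀ (K n : ℕ) (A : HTuple K n), ∃ α, Lists A α) ∧
    -- `C_K` is itself an admissible constant
    (∀ K n : ℕ, 1 ≤ K → 1 ≤ n → ∀ (A B : HTuple K n) (α β : Fin n → EuclideanSpace ℝ (Fin K)),
      Lists A α → Lists B β →
        ENNReal.ofReal (matchDist α β) ≤ CK K * ENNReal.ofReal (tupleDist A B)) ∧
    -- `C_K < ∞`
    (∀ K : ℕ, 1 ≤ K → CK K < ⊤) ∧
    -- explicit bounds
    (∀ K : ℕ, 1 ≤ K → ∀ t : ℝ, 1 < t → (t * Real.exp (1 - t)) ^ K < 1 ∧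
      CK K ≤ ENNReal.ofReal √(t * K / (1 - (t * Real.exp (1 - t)) ^ K))) ∧
    (∀ K : ℕ, 1 ≤ K → CK K ≤ ENNReal.ofReal (√(K + 1) *
      (√(Real.log (K + 1) / (2 * K)) + √(1 + Real.log (K + 1) / (2 * K))))) ∧
    -- `limsup C_K / √K ≤ 1`
    (∀ ε : ℝ, 0 < ε → ∀ᶠ K : ℕ in atTop, CK K ≤ ENNReal.ofReal ((1 + ε) * √K)) ∧
    CK 2 ≤ ENNReal.ofReal 2.67 ∧ CK 3 ≤ ENNReal.ofReal 3.02 :=
  ⟨fun _ _ A => exists_lists A,
    fun _ _ hK hn A B α β hA hB => CK_attained hK hn A B α β hA hB,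
    fun _ hK => lt_of_le_of_lt (CK_le_explicit hK) ENNReal.ofReal_lt_top,
    fun _ hK _ ht => ⟨q_lt_one hK ht, CK_le hK ht⟩,
    fun _ hK => CK_le_explicit hK,
    fun _ hε => CK_eventually hε,
    CK_two, CK_three⟩

end Pool.Agent.Results.MP_434093_an.SqrtBoundH81
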